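import Pool.Agent.Y34.CH.Quot

/-!
The auxiliary function of the contraction.
-/

set_option autoImplicit false

namespace Pool.Agent.Y34.CH

open MvPolynomial

noncomputable section

variable {m r : ℕ}

/-- The Lagrange polynomials of the nodes `c`. -/
def Lg (c : Fin r → ℂ) (j : Fin r) : Polynomial ℂ := Lagrange.basis Finset.univ c j

/-- Their values. -/
def Lv (c : Fin r → ℂ) (j : Fin r) (x : ℂ) : ℂ := (Lg c j).eval x

lemma Lv_self {c : Fin r → ℂ} (hc : Function.Injective c) (j : Fin r) : Lv c j (c j) = 1 :=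
  Lagrange.eval_basis_self hc.injOn (Finset.mem_univ j)

lemma Lv_ne {c : Fin r → ℂ} {i j : Fin r} (h : i ≠ j) : Lv c i (c j) = 0 :=
  Lagrange.eval_basis_of_ne h (Finset.mem_univ j)

lemma sum_Lv {c : Fin r → ℂ} (hc : Function.Injective c) (hr : 0 < r) (x : ℂ) :
    ∑ j, Lv c j x = 1 := by
  have : Nonempty (Fin r) := ⟨⟨0, hr⟩⟩
  have h := Lagrange.sum_basis (s := (Finset.univ : Finset (Fin r))) hc.injOn
    Finset.univ_nonempty
  have h1 := congrArg (Polynomial.eval x) h
  rw [Polynomial.eval_finsetSum, Polynomial.eval_one] at h1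
  exact h1

/-- Sums against the Lagrange polynomials at a node. -/
lemma sum_node {c : Fin r → ℂ} (hc : Function.Injective c) (k : Fin r) (f : Fin r → ℂ) :
    ∑ j, Lv c j (c k) * f j = f k := by
  rw [Finset.sum_eq_single k]
  · rw [Lv_self hc, one_mul]
  · intro j _ hj
    rw [Lv_ne hj, zero_mul]
  · intro h; exact absurd (Finset.mem_univ k) h

lemma sum_node' {c : Fin r → ℂ} (hc : Function.Injective c) (k : Fin r) (f : Fin r → ℂ) :
    ∑ j, f j * Lv c j (c k) = f k := by
  rw [← sum_node hc k f]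
  exact Finset.sum_congr rfl fun _ _ => mul_comm _ _

/-- The interpolation of the polynomials `g j` at the nodes. -/
def Gf (c : Fin r → ℂ) (g : Fin r → MvPolynomial (Fin (m + 1)) ℂ) (x : ℂ)
    (z : Fin (m + 1) → ℂ) : ℂ := ∑ j, Lv c j x * eval z (g j)

/-- The interpolated scaling factors. -/
def Hf (c : Fin r → ℂ) (w : Fin r → Fin (m + 1) → ℕ) (τ x : ℂ) (i : Fin (m + 1)) : ℂ :=
  ∑ k, τ ^ w k i * Lv c k x

/-- The interpolated degree factor. -/
def kap (c : Fin r → ℂ) (d : Fin r → ℕ) (τ x : ℂ) : ℂ := ∑ k, τ ^ d k * Lv c k x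

lemma hom_aeval {B : Type} [CommRing B] [Algebra ℂ B] (φ : B →+* ℂ)
    (hφ : ∀ c, φ (algebraMap ℂ B c) = c) {σ : Type} (h : σ → B) (g : MvPolynomial σ ℂ) :
    φ (aeval h g) = eval (fun i => φ (h i)) g := by
  induction g using MvPolynomial.induction_on with
  | C a => rw [aeval_C, hφ, eval_C]
  | add p q hp hq => rw [map_add, map_add, map_add, hp, hq]
  | mul_X p i hp => rw [map_mul, map_mul, map_mul, hp, aeval_X, eval_X]

/-- The ring of coefficients. -/
abbrev AA (m : ℕ) : Type := MvPolynomial (Option (Fin (m + 1))) ℂ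

/-- The point of the parameter space as a valuation of the variables. -/
def pt (t : ℂ × (Fin (m + 1) → ℂ)) (o : Option (Fin (m + 1))) : ℂ := o.elim t.1 t.2

/-- Evaluation of the coefficients. -/
def evA (t : ℂ × (Fin (m + 1) → ℂ)) : AA m →+* ℂ := eval (pt t)

lemma evA_alg (t : ℂ × (Fin (m + 1) → ℂ)) (c : ℂ) : evA t (algebraMap ℂ (AA m) c) = c := by
  rw [MvPolynomial.algebraMap_eq]
  exact eval_C c

lemma evA_joint (a : AA m) (h : ∀ t, evA t a = 0) : a = 0 := by
  apply MvPolynomial.funext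
  intro x
  rw [map_zero]
  have h1 := h (x none, fun i => x (some i))
  have h2 : pt (x none, fun i => x (some i)) = x := by
    funext o
    cases o <;> rfl
  rw [evA, h2] at h1
  exact h1

lemma evA_cont (a : AA m) : Continuous fun t : ℂ × (Fin (m + 1) → ℂ) => evA t a := by
  refine (MvPolynomial.continuous_eval a).comp (continuous_pi fun o => ?_)
  cases o with
  | none => exact continuous_fst
  | some i => exact (continuous_apply i).comp continuous_snd

variable (c : Fin r → ℂ) (g : Fin r → MvPolynomial (Fin (m + 1)) ℂ)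
  (w : Fin r → Fin (m + 1) → ℕ) (d : Fin r → ℕ)

/-- The Lagrange polynomials over the ring of coefficients. -/
def LA (m : ℕ) (c : Fin r → ℂ) (j : Fin r) : Polynomial (AA m) :=
  (Lg c j).map (algebraMap ℂ (AA m))

lemma ph_LA (t : ℂ × (Fin (m + 1) → ℂ)) (x : ℂ) (j : Fin r) :
    ph evA t x (LA m c j) = Lv c j x := by
  rw [ph_apply, LA, Polynomial.eval_map, Polynomial.eval₂_hom, evA_alg]
  rfl

/-- The scaled variables. -/
def hA (i : Fin (m + 1)) : Polynomial (AA m) :=
  (∑ k, Polynomial.C (X none ^ w k i) * LA m c k) * Polynomial.C (X (some i))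

/-- The degree factor. -/
def kA : Polynomial (AA m) := ∑ k, Polynomial.C (X none ^ d k) * LA m c k

/-- The polynomial which is divided. -/
def SA : Polynomial (AA m) :=
  ∑ j, LA m c j * aeval (hA c w) (g j) -
    kA c d * ∑ j, LA m c j * Polynomial.C (rename some (g j))

lemma ph_hA (t : ℂ × (Fin (m + 1) → ℂ)) (x : ℂ) (i : Fin (m + 1)) :
    ph evA t x (hA c w i) = Hf c w t.1 x i * t.2 i := by
  rw [hA, map_mul, map_sum, ph_C, Hf]
  have h1 : evA t (X (some i)) = t.2 i := eval_X _
  rw [h1]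
  congr 1
  apply Finset.sum_congr rfl
  intro k _
  rw [map_mul, ph_C, ph_LA, map_pow]
  have h2 : evA t (X none) = t.1 := eval_X _
  rw [h2]

lemma ph_kA (t : ℂ × (Fin (m + 1) → ℂ)) (x : ℂ) :
    ph evA t x (kA (m := m) c d) = kap c d t.1 x := by
  rw [kA, map_sum, kap]
  apply Finset.sum_congr rfl
  intro k _
  rw [map_mul, ph_C, ph_LA, map_pow]
  have h2 : evA t (X none) = t.1 := eval_X _
  rw [h2]

lemma ph_SA (t : ℂ × (Fin (m + 1) → ℂ)) (x : ℂ) :
    ph evA t x (SA c g w d) =
      Gf c g x (fun i => Hf c w t.1 x i * t.2 i) - kap c d t.1 x * Gf c g x t.2 := by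
  rw [SA, map_sub, map_mul, map_sum, map_sum, ph_kA]
  congr 1
  · rw [Gf]
    apply Finset.sum_congr rfl
    intro j _
    rw [map_mul, ph_LA, hom_aeval (ph evA t x) (ph_algebraMap evA evA_alg t x)]
    simp only [ph_hA]
  · congr 1
    rw [Gf]
    apply Finset.sum_congr rfl
    intro j _
    rw [map_mul, ph_LA, ph_C]
    congr 1
    rw [evA, eval_rename]
    rfl

variable {c g w d}

/-- The auxiliary function. -/
lemma exists_lam (hr : 0 < r) (hc : Function.Injective c)
    (hw : ∀ j i, 0 < w j i) (hd : ∀ j, 0 < d j)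
    (hq : ∀ j (t : ℂ) z, eval (fun i => t ^ w j i * z i) (g j) = t ^ d j * eval z (g j)) :
    ∃ lam : (ℂ × (Fin (m + 1) → ℂ)) × ℂ → ℂ, Continuous lam ∧
      (∀ τ z x, Gf c g x (fun i => Hf c w τ x i * z i) =
        kap c d τ x * Gf c g x z + (∏ j, (x - c j)) * lam ((τ, z), x)) ∧
      (∀ z x, lam ((1, z), x) = 0) ∧ ∀ z x, lam ((0, z), x) = 0 := by
  have hnode : ∀ (t : ℂ × (Fin (m + 1) → ℂ)) (k : Fin r), ph evA t (c k) (SA c g w d) = 0 := by
    intro t k
    rw [ph_SA]
    have h1 : Gf c g (c k) (fun i => Hf c w t.1 (c k) i * t.2 i) =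
        eval (fun i => Hf c w t.1 (c k) i * t.2 i) (g k) := sum_node hc k _
    have h2 : Gf c g (c k) t.2 = eval t.2 (g k) := sum_node hc k _
    have h3 : kap c d t.1 (c k) = t.1 ^ d k := sum_node' hc k _
    have h4 : (fun i => Hf c w t.1 (c k) i * t.2 i) = fun i => t.1 ^ w k i * t.2 i := by
      funext i
      have : Hf c w t.1 (c k) i = t.1 ^ w k i := sum_node' hc k _
      rw [this]
    rw [h1, h2, h3, h4, hq, sub_self]
  obtain ⟨lam, hcont, hfac, hzero⟩ := exists_quot evA evA_alg evA_joint evA_cont c hc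
    (SA c g w d) hnode
  refine ⟨lam, hcont, ?_, ?_, ?_⟩
  · intro τ z x
    have h := hfac (τ, z) x
    rw [ph_SA] at h
    rw [← h]
    ring
  · intro z
    apply hzero
    intro x
    rw [ph_SA]
    have h1 : ∀ i, Hf c w 1 x i = 1 := by
      intro i
      simp only [Hf, one_pow, one_mul]
      exact sum_Lv hc hr x
    have h2 : kap c d 1 x = 1 := by
      simp only [kap, one_pow, one_mul]
      exact sum_Lv hc hr x
    simp only [h1, h2, one_mul, sub_self]
  · intro z
    apply hzero
    intro x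
    rw [ph_SA]
    have h1 : ∀ i, Hf c w 0 x i = 0 := by
      intro i
      simp only [Hf]
      apply Finset.sum_eq_zero
      intro k _
      rw [zero_pow (hw k i).ne', zero_mul]
    have h2 : kap c d 0 x = 0 := by
      simp only [kap]
      apply Finset.sum_eq_zero
      intro k _
      rw [zero_pow (hd k).ne', zero_mul]
    have h3 : ∀ j, eval (fun _ => 0) (g j) = 0 := by
      intro j
      have := hq j 0 0
      simp only [Pi.zero_apply, mul_zero, zero_pow (hd j).ne', zero_mul] at this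
      exact this
    simp only [h1, h2, zero_mul, sub_zero]
    rw [Gf]
    apply Finset.sum_eq_zero
    intro j _
    rw [h3, mul_zero]

end

end Pool.Agent.Y34.CH
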