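import Pool.Agent.Results.MP_aa2e78_ag.NotQuasihomogeneous

/-!
Isomorphisms of coordinate rings of hypersurfaces of `ℂⁿ` carry singular points to singular points
(the argument of the starting file `MP_c4712b_ag/ManyNodesFamily` for surfaces in `ℂ³`, in all
dimensions).
-/

set_option autoImplicit false

namespace Pool.Agent.Y34.CH

open MvPolynomial
open Pool.Agent.Results.MP_aa2e78_ag.NotQuasihomogeneous

/-- The coordinate ring `ℂ[x] / (p)` of the hypersurface `p = 0`. -/
abbrev CoordRing {n : ℕ} (p : MvPolynomial (Fin n) ℂ) : Type :=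
  MvPolynomial (Fin n) ℂ ⧸ Ideal.span {p}

noncomputable section

variable {n : ℕ}

/-- A homomorphism of coordinate rings lifted to polynomials. -/
lemma exists_lift {p q : MvPolynomial (Fin n) ℂ} (Ψ : CoordRing q →ₐ[ℂ] CoordRing p) :
    ∃ F : Fin n → MvPolynomial (Fin n) ℂ, ∀ g : MvPolynomial (Fin n) ℂ,
      Ψ (Ideal.Quotient.mk _ g) = Ideal.Quotient.mk _ (aeval F g) := by
  choose F hF using fun i : Fin n =>
    Ideal.Quotient.mk_surjective (Ψ (Ideal.Quotient.mk _ (X i)))
  refine ⟨F, fun g => ?_⟩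
  have h : Ψ.comp (Ideal.Quotient.mkₐ ℂ (Ideal.span {q})) =
      (Ideal.Quotient.mkₐ ℂ (Ideal.span {p})).comp (aeval F) := by
    apply MvPolynomial.algHom_ext
    intro i
    simp [hF]
  exact DFunLike.congr_fun h g

/-- The data of a pair of mutually inverse maps between two hypersurfaces. -/
lemma iso_data {p q : MvPolynomial (Fin n) ℂ} (Ψ : CoordRing p ≃ₐ[ℂ] CoordRing q) :
    ∃ F G : Fin n → MvPolynomial (Fin n) ℂ,
      (∃ h, aeval F q = h * p) ∧ (∃ h, aeval G p = h * q) ∧
      (∀ i, ∃ h, aeval F (G i) = X i + h * p) ∧ (∀ i, ∃ h, aeval G (F i) = X i + h * q) := by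
  obtain ⟨F, hF⟩ := exists_lift (Ψ.symm : CoordRing q →ₐ[ℂ] CoordRing p)
  obtain ⟨G, hG⟩ := exists_lift (Ψ : CoordRing p →ₐ[ℂ] CoordRing q)
  have key : ∀ (r : MvPolynomial (Fin n) ℂ) (g g' : MvPolynomial (Fin n) ℂ),
      (Ideal.Quotient.mk (Ideal.span {r}) g =
      Ideal.Quotient.mk (Ideal.span {r}) g') → ∃ h, g = g' + h * r := by
    intro r g g' hgg
    rw [Ideal.Quotient.eq, Ideal.mem_span_singleton] at hgg
    obtain ⟨h, hh⟩ := hgg
    exact ⟨h, by linear_combination hh⟩
  refine ⟨F, G, ?_, ?_, fun i => ?_, fun i => ?_⟩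
  · have h1 := hF q
    have h2 : Ideal.Quotient.mk (Ideal.span {q}) q = 0 :=
      Ideal.Quotient.eq_zero_iff_mem.mpr (Ideal.mem_span_singleton_self q)
    rw [h2, map_zero] at h1
    obtain ⟨h, hh⟩ := key p _ 0 (by rw [← h1, map_zero])
    exact ⟨h, by rw [hh, zero_add]⟩
  · have h1 := hG p
    have h2 : Ideal.Quotient.mk (Ideal.span {p}) p = 0 :=
      Ideal.Quotient.eq_zero_iff_mem.mpr (Ideal.mem_span_singleton_self p)
    rw [h2, map_zero] at h1
    obtain ⟨h, hh⟩ := key q _ 0 (by rw [← h1, map_zero])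
    exact ⟨h, by rw [hh, zero_add]⟩
  · apply key
    rw [← hF]
    have h1 := hG (X i)
    rw [aeval_X] at h1
    rw [← h1]
    exact Ψ.symm_apply_apply _
  · apply key
    rw [← hG]
    have h1 := hF (X i)
    rw [aeval_X] at h1
    rw [← h1]
    exact Ψ.apply_symm_apply _

/-- A singular point is mapped to a singular point. -/
lemma sing_push {p q : MvPolynomial (Fin n) ℂ} {F G : Fin n → MvPolynomial (Fin n) ℂ}
    (hF : ∃ h, aeval F q = h * p) (hGF : ∀ i, ∃ h, aeval F (G i) = X i + h * p)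
    (a : Fin n → ℂ) (ha : IsSingularPt p a) : IsSingularPt q (fun i => eval a (F i)) := by
  obtain ⟨h0, ha'⟩ := ha
  obtain ⟨h, hh⟩ := hF
  refine ⟨by rw [← eval_aeval, hh, map_mul, h0, mul_zero], ?_⟩
  set A : Matrix (Fin n) (Fin n) ℂ := Matrix.of fun i j => eval a (pderiv i (F j)) with hA
  set B : Matrix (Fin n) (Fin n) ℂ :=
    Matrix.of fun i j => eval (fun l => eval a (F l)) (pderiv i (G j)) with hB
  have hAB : A * B = 1 := by
    ext i j
    obtain ⟨g, hg⟩ := hGF j
    have h1 := congrArg (fun g => eval a (pderiv i g)) hg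
    simp only [pderiv_aeval, map_sum, map_mul, map_add, Derivation.leibniz, smul_eq_mul,
      eval_aeval, h0, ha' i, mul_zero, zero_mul, add_zero] at h1
    rw [Matrix.mul_apply]
    simp only [hA, hB, Matrix.of_apply]
    rw [← show ∑ x, eval (fun l => eval a (F l)) (pderiv x (G j)) * eval a (pderiv i (F x)) =
      ∑ x, eval a (pderiv i (F x)) * eval (fun l => eval a (F l)) (pderiv x (G j)) from
        Finset.sum_congr rfl fun _ _ => mul_comm _ _, h1]
    by_cases hij : i = j
    · subst hij; simp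
    · rw [pderiv_X_of_ne (Ne.symm hij), Matrix.one_apply_ne hij, map_zero]
  have hBA : B * A = 1 := mul_eq_one_comm.mp hAB
  set v : Fin n → ℂ := fun j => eval (fun l => eval a (F l)) (pderiv j q) with hv
  have hAv : A.mulVec v = 0 := by
    ext i
    have h1 := congrArg (fun g => eval a (pderiv i g)) hh
    simp only [pderiv_aeval, map_sum, map_mul, map_add, Derivation.leibniz, smul_eq_mul,
      eval_aeval, h0, ha' i, mul_zero, zero_mul, add_zero] at h1
    simp only [Matrix.mulVec, dotProduct, hA, hv, Matrix.of_apply, Pi.zero_apply]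
    rw [← h1]
    exact Finset.sum_congr rfl fun _ _ => mul_comm _ _
  have hv0 : v = 0 := by
    have : (B * A).mulVec v = 0 := by
      rw [← Matrix.mulVec_mulVec, hAv, Matrix.mulVec_zero]
    rwa [hBA, Matrix.one_mulVec] at this
  intro i
  exact congrFun hv0 i

lemma pt_back {p : MvPolynomial (Fin n) ℂ} {F G : Fin n → MvPolynomial (Fin n) ℂ}
    (hGF : ∀ i, ∃ h, aeval F (G i) = X i + h * p)
    (a : Fin n → ℂ) (ha : eval a p = 0) :
    (fun i => eval (fun j => eval a (F j)) (G i)) = a := by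
  funext i
  obtain ⟨h, hh⟩ := hGF i
  rw [← eval_aeval, hh, map_add, eval_X, map_mul, ha, mul_zero, add_zero]

/-- Hypersurfaces with isomorphic coordinate rings have the same number of singular points. -/
lemma ncard_sing_eq {p q : MvPolynomial (Fin n) ℂ} (Ψ : CoordRing p ≃ₐ[ℂ] CoordRing q) :
    {b | IsSingularPt q b}.ncard = {a | IsSingularPt p a}.ncard := by
  obtain ⟨F, G, hF, hG, hGF, hFG⟩ := iso_data Ψ
  apply Set.ncard_congr (fun b _ => fun i => eval b (G i))
  · intro b hb
    exact sing_push hG hFG b hb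
  · intro b b' hb hb' hbb
    have e1 := pt_back hFG b hb.1
    have e2 := pt_back hFG b' hb'.1
    rw [← e1, ← e2]
    funext i
    have := congrArg (fun c => eval c (F i)) hbb
    simpa using this
  · intro a ha
    exact ⟨_, sing_push hF hGF a ha, pt_back hGF a ha.1⟩

/-- A quasihomogeneous polynomial has at most one singular point, or infinitely many. -/
lemma not_qh_of_ncard {q : MvPolynomial (Fin n) ℂ} (h : 2 ≤ {b | IsSingularPt q b}.ncard) :
    ¬ IsQuasihomogeneous q := by
  intro hq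
  have hfin : {b | IsSingularPt q b}.Finite := Set.finite_of_ncard_pos (by omega)
  have h2 : 1 < {b | IsSingularPt q b}.ncard := by omega
  obtain ⟨a₀, a₁, h₀, h₁, hne⟩ := (Set.one_lt_ncard_iff hfin).mp h2
  by_cases hz : a₀ = 0
  · exact qh_sing hq a₁ (fun h => hne (hz.trans h.symm)) h₁ hfin
  · exact qh_sing hq a₀ hz h₀ hfin

/-- A polynomial automorphism carrying `p` to `q` induces an isomorphism of coordinate rings. -/
lemma iso_of_aut (p : MvPolynomial (Fin n) ℂ)
    (Φ : MvPolynomial (Fin n) ℂ ≃ₐ[ℂ] MvPolynomial (Fin n) ℂ) :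
    Nonempty (CoordRing p ≃ₐ[ℂ] CoordRing (Φ p)) := by
  refine ⟨Ideal.quotientEquivAlg (Ideal.span {p}) (Ideal.span {Φ p}) Φ ?_⟩
  rw [Ideal.map_span]
  simp

end

end Pool.Agent.Y34.CH
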