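import Pool.Agent.Y34.CH.Hom
import Pool.Agent.Y34.CH.Trans

/-!
The hypersurfaces `x_0 ∏ (x_1 - c_j) = ∑ ℓ_j(x_1) g_j(x_2, ..., x_{n-1})`.
-/

set_option autoImplicit false

namespace Pool.Agent.Y34.CH

open MvPolynomial
open Pool.Agent.Results.MP_aa2e78_ag.NotQuasihomogeneous

noncomputable section

variable {m r : ℕ}

/-- A polynomial in `x_1`. -/
def al (m : ℕ) (f : Polynomial ℂ) : MvPolynomial (Fin (m + 3)) ℂ := Polynomial.aeval (X 1) f

/-- A polynomial in the last variables `x_2, ..., x_{m+2}`. -/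
def rn (g : MvPolynomial (Fin (m + 1)) ℂ) : MvPolynomial (Fin (m + 3)) ℂ :=
  rename (fun i : Fin (m + 1) => i.succ.succ) g

/-- The last coordinates. -/
def ze (x : Fin (m + 3) → ℂ) (i : Fin (m + 1)) : ℂ := x i.succ.succ

/-- The polynomial. -/
def PP (c : Fin r → ℂ) (g : Fin r → MvPolynomial (Fin (m + 1)) ℂ) :
    MvPolynomial (Fin (m + 3)) ℂ :=
  al m (Lagrange.nodal Finset.univ c) * X 0 + -(∑ j, al m (Lg c j) * rn (g j))

lemma eval_al (f : Polynomial ℂ) (a : Fin (m + 3) → ℂ) : eval a (al m f) = f.eval (a 1) := by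
  induction f using Polynomial.induction_on' with
  | add p q hp hq => rw [al, map_add, map_add, Polynomial.eval_add, ← hp, ← hq]; rfl
  | monomial k b =>
    rw [al, Polynomial.aeval_monomial, map_mul, map_pow, eval_X, Polynomial.eval_monomial,
      MvPolynomial.algebraMap_eq, eval_C]

lemma eval_rn (g : MvPolynomial (Fin (m + 1)) ℂ) (a : Fin (m + 3) → ℂ) :
    eval a (rn g) = eval (ze a) g := by
  rw [rn, eval_rename]; rfl

lemma pderiv_al (f : Polynomial ℂ) (i : Fin (m + 3)) :
    pderiv i (al m f) = al m f.derivative * pderiv i (X 1) := by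
  rw [al, Derivation.map_aeval, smul_eq_mul]; rfl

lemma ss_inj : Function.Injective (fun i : Fin (m + 1) => (i.succ.succ : Fin (m + 3))) :=
  fun _ _ h => Fin.succ_injective _ (Fin.succ_injective _ h)

lemma notMem_rn (g : MvPolynomial (Fin (m + 1)) ℂ) (i : Fin (m + 3))
    (hi : ∀ k : Fin (m + 1), k.succ.succ ≠ i) : i ∉ (rn g).vars := by
  classical
  intro h
  have h1 := vars_rename _ _ h
  rw [Finset.mem_image] at h1
  obtain ⟨k, _, hk⟩ := h1
  exact hi k hk

lemma pderiv_rn_of (g : MvPolynomial (Fin (m + 1)) ℂ) (i : Fin (m + 3))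
    (hi : ∀ k : Fin (m + 1), k.succ.succ ≠ i) : pderiv i (rn g) = 0 :=
  pderiv_eq_zero_of_notMem_vars (notMem_rn g i hi)

lemma pderiv_rn (g : MvPolynomial (Fin (m + 1)) ℂ) (k : Fin (m + 1)) :
    pderiv k.succ.succ (rn g) = rn (pderiv k g) :=
  pderiv_rename ss_inj k g

lemma eval_PP (c : Fin r → ℂ) (g : Fin r → MvPolynomial (Fin (m + 1)) ℂ)
    (a : Fin (m + 3) → ℂ) :
    eval a (PP c g) = (∏ j, (a 1 - c j)) * a 0 - Gf c g (a 1) (ze a) := by
  rw [PP, map_add, map_mul, eval_al, eval_X, map_neg, map_sum, Lagrange.eval_nodal,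
    ← sub_eq_add_neg]
  congr 1
  rw [Gf]
  apply Finset.sum_congr rfl
  intro j _
  rw [map_mul, eval_al, eval_rn]; rfl

lemma eval_d0 (c : Fin r → ℂ) (g : Fin r → MvPolynomial (Fin (m + 1)) ℂ)
    (a : Fin (m + 3) → ℂ) : eval a (pderiv 0 (PP c g)) = ∏ j, (a 1 - c j) := by
  have h1 : pderiv (0 : Fin (m + 3)) (X 1 : MvPolynomial (Fin (m + 3)) ℂ) = 0 :=
    pderiv_X_of_ne one_ne_zero'
  have h2 : ∀ f, pderiv (0 : Fin (m + 3)) (al m f) = 0 := fun f => by
    rw [pderiv_al, h1, mul_zero]
  have h3 : ∀ g : MvPolynomial (Fin (m + 1)) ℂ, pderiv (0 : Fin (m + 3)) (rn g) = 0 :=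
    fun g => pderiv_rn_of g 0 ss_ne_zero
  simp only [PP, map_add, map_neg, map_sum, Derivation.leibniz, h2, h3, pderiv_X_self,
    smul_eq_mul, mul_zero, add_zero, mul_one, Finset.sum_const_zero, neg_zero, eval_al,
    Lagrange.eval_nodal]

lemma eval_d1 (c : Fin r → ℂ) (g : Fin r → MvPolynomial (Fin (m + 1)) ℂ)
    (a : Fin (m + 3) → ℂ) : eval a (pderiv 1 (PP c g)) =
      (Lagrange.nodal Finset.univ c).derivative.eval (a 1) * a 0 -
        ∑ j, (Lg c j).derivative.eval (a 1) * eval (ze a) (g j) := by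
  have h1 : pderiv (1 : Fin (m + 3)) (X 0 : MvPolynomial (Fin (m + 3)) ℂ) = 0 :=
    pderiv_X_of_ne one_ne_zero'.symm
  have h2 : ∀ f, pderiv (1 : Fin (m + 3)) (al m f) = al m f.derivative := fun f => by
    rw [pderiv_al, pderiv_X_self, mul_one]
  have h3 : ∀ g : MvPolynomial (Fin (m + 1)) ℂ, pderiv (1 : Fin (m + 3)) (rn g) = 0 :=
    fun g => pderiv_rn_of g 1 ss_ne_one
  simp only [PP, map_add, map_neg, map_sum, Derivation.leibniz, h1, h2, h3,
    smul_eq_mul, mul_zero, zero_add, eval_al, eval_rn, map_mul, eval_X]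
  rw [sub_eq_add_neg]
  congr 1
  · ring
  · congr 1
    exact Finset.sum_congr rfl fun _ _ => mul_comm _ _

lemma eval_dss (c : Fin r → ℂ) (g : Fin r → MvPolynomial (Fin (m + 1)) ℂ)
    (a : Fin (m + 3) → ℂ) (k : Fin (m + 1)) : eval a (pderiv k.succ.succ (PP c g)) =
      -∑ j, Lv c j (a 1) * eval (ze a) (pderiv k (g j)) := by
  have h0 : pderiv (k.succ.succ : Fin (m + 3)) (X 0 : MvPolynomial (Fin (m + 3)) ℂ) = 0 :=
    pderiv_X_of_ne (ss_ne_zero k).symm
  have h1 : pderiv (k.succ.succ : Fin (m + 3)) (X 1 : MvPolynomial (Fin (m + 3)) ℂ) = 0 :=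
    pderiv_X_of_ne (ss_ne_one k).symm
  have h2 : ∀ f, pderiv (k.succ.succ : Fin (m + 3)) (al m f) = 0 := fun f => by
    rw [pderiv_al, h1, mul_zero]
  simp only [PP, map_add, map_neg, map_sum, Derivation.leibniz, h0, h2, pderiv_rn,
    smul_eq_mul, mul_zero, zero_add, add_zero, eval_al, eval_rn, map_mul]
  rfl

/-- The point over the node `c j`. -/
def spt (m : ℕ) (b : ℂ) : Fin (m + 3) → ℂ := Pi.single 1 b

lemma spt_0 (b : ℂ) : spt m b 0 = 0 := Pi.single_eq_of_ne one_ne_zero'.symm _
lemma spt_1 (b : ℂ) : spt m b 1 = b := Pi.single_eq_same _ _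
lemma spt_ze (b : ℂ) : ze (spt m b) = 0 := by
  funext i
  exact Pi.single_eq_of_ne (ss_ne_one i) b

lemma eq_spt (a : Fin (m + 3) → ℂ) (h0 : a 0 = 0) (hz : ze a = 0) : a = spt m (a 1) := by
  funext i
  refine Fin.cases ?_ (fun i => ?_) i
  · rw [h0, spt_0]
  · refine Fin.cases ?_ (fun i => ?_) i
    · exact (spt_1 (m := m) (a 1)).symm
    · exact (congrFun hz i).trans (congrFun (spt_ze (m := m) (a 1)) i).symm

lemma nodal_deriv_ne {c : Fin r → ℂ} (hc : Function.Injective c) (j : Fin r) :
    (Lagrange.nodal Finset.univ c).derivative.eval (c j) ≠ 0 := by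
  classical
  rw [Lagrange.eval_nodal_derivative_eval_node_eq (Finset.mem_univ j), Lagrange.eval_nodal,
    Finset.prod_ne_zero_iff]
  intro i hi h0
  exact (Finset.mem_erase.mp hi).1 (hc (sub_eq_zero.mp h0)).symm

variable {c : Fin r → ℂ} {g : Fin r → MvPolynomial (Fin (m + 1)) ℂ}

lemma sing_PP (hc : Function.Injective c) (hs : ∀ j z, IsSingularPt (g j) z ↔ z = 0)
    (a : Fin (m + 3) → ℂ) : IsSingularPt (PP c g) a ↔ ∃ j, spt m (c j) = a := by
  have hg0 : ∀ j, eval (0 : Fin (m + 1) → ℂ) (g j) = 0 := fun j => ((hs j 0).mpr rfl).1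
  constructor
  · rintro ⟨h0, h⟩
    have e0 := h 0
    rw [eval_d0] at e0
    obtain ⟨j, _, hj⟩ := Finset.prod_eq_zero_iff.mp e0
    have hj' : a 1 = c j := sub_eq_zero.mp hj
    have ek : ∀ k, eval (ze a) (pderiv k (g j)) = 0 := by
      intro k
      have := h k.succ.succ
      rw [eval_dss, hj', sum_node hc j] at this
      exact neg_eq_zero.mp this
    have e : eval (ze a) (g j) = 0 := by
      rw [eval_PP, e0, zero_mul, zero_sub, neg_eq_zero, Gf, hj', sum_node hc j] at h0
      exact h0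
    have hz : ze a = 0 := (hs j _).mp ⟨e, ek⟩
    have e1 := h 1
    rw [eval_d1, hz] at e1
    simp only [hg0, mul_zero, Finset.sum_const_zero, sub_zero] at e1
    rw [hj'] at e1
    have ha0 : a 0 = 0 := by
      rcases mul_eq_zero.mp e1 with h3 | h3
      · exact absurd h3 (nodal_deriv_ne hc j)
      · exact h3
    refine ⟨j, ?_⟩
    rw [← hj']
    exact (eq_spt a ha0 hz).symm
  · rintro ⟨j, rfl⟩
    have hprod : ∏ i, (spt m (c j) 1 - c i) = 0 := by
      rw [spt_1]
      exact Finset.prod_eq_zero (Finset.mem_univ j) (sub_self _)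
    refine ⟨?_, fun i => ?_⟩
    · rw [eval_PP, hprod, zero_mul, zero_sub, Gf, spt_ze]
      simp only [hg0, mul_zero, Finset.sum_const_zero, neg_zero]
    · refine Fin.cases ?_ (fun i => ?_) i
      · rw [eval_d0, hprod]
      · refine Fin.cases ?_ (fun k => ?_) i
        · have : (0 : Fin (m + 2)).succ = (1 : Fin (m + 3)) := rfl
          rw [this, eval_d1, spt_ze, spt_0]
          simp only [hg0, mul_zero, Finset.sum_const_zero, sub_zero]
        · rw [eval_dss, spt_1, spt_ze, sum_node hc j, ((hs j 0).mpr rfl).2 k, neg_zero]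

lemma spt_inj (hc : Function.Injective c) : Function.Injective fun j => spt m (c j) := by
  intro i j h
  have := congrFun h 1
  simp only [spt_1] at this
  exact hc this

lemma sing_set' (hc : Function.Injective c) (hs : ∀ j z, IsSingularPt (g j) z ↔ z = 0) :
    {a | IsSingularPt (PP c g) a} = Set.range fun j => spt m (c j) := by
  ext a
  exact sing_PP hc hs a

lemma sing_ncard (hc : Function.Injective c) (hs : ∀ j z, IsSingularPt (g j) z ↔ z = 0) :
    {a | IsSingularPt (PP c g) a}.ncard = r := by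
  rw [sing_set' hc hs, ← Set.image_univ, Set.ncard_image_of_injective _ (spt_inj hc),
    Set.ncard_univ, Nat.card_eq_fintype_card, Fintype.card_fin]

lemma isolated (hc : Function.Injective c) (hs : ∀ j z, IsSingularPt (g j) z ↔ z = 0)
    (a : Fin (m + 3) → ℂ) (h : IsSingularPt (PP c g) a) : IsIsolatedSingularPt (PP c g) a := by
  have hfin : ({a | IsSingularPt (PP c g) a} \ {a}).Finite := by
    rw [sing_set' hc hs]
    exact (Set.finite_range _).subset Set.sdiff_subset
  refine ⟨h, _, hfin.isClosed.isOpen_compl.mem_nhds (by simp), ?_⟩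
  intro b hb hba hsb
  exact hb ⟨hsb, by simpa using hba⟩

/-! ### Irreducibility -/

lemma irr_lin (b : ℂ) : Irreducible (X 1 - C b : MvPolynomial (Fin (m + 3)) ℂ) := by
  have hd : (X 1 - C b : MvPolynomial (Fin (m + 3)) ℂ).totalDegree = 1 := by
    have h : (X 1 - C b : MvPolynomial (Fin (m + 3)) ℂ) = X 1 + C (-b) := by
      simp [sub_eq_add_neg]
    rw [h, totalDegree_add_eq_left_of_totalDegree_lt]
    · simp
    · simp
  apply irreducible_of_totalDegree_eq_one hd
  intro x hx
  have h1 := hx (Finsupp.single 1 1)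
  have h2 : coeff (Finsupp.single 1 1) (X 1 - C b : MvPolynomial (Fin (m + 3)) ℂ) = 1 := by
    have hne : ¬ ((0 : Fin (m + 3) →₀ ℕ) = Finsupp.single 1 1) := by
      intro h
      have := congrArg (fun g : Fin (m + 3) →₀ ℕ => g 1) h
      simp at this
    rw [coeff_sub, coeff_X, if_pos rfl, coeff_C, if_neg hne, sub_zero]
  rw [h2] at h1
  exact isUnit_of_dvd_one h1

lemma vars_al (f : Polynomial ℂ) : (0 : Fin (m + 3)) ∉ (al m f).vars := by
  intro h
  rw [al, Polynomial.aeval_eq_sum_range] at h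
  have h1 := vars_sum_subset _ _ h
  rw [Finset.mem_biUnion] at h1
  obtain ⟨i, _, hi⟩ := h1
  rw [smul_eq_C_mul] at hi
  have h2 := vars_mul _ _ hi
  rw [Finset.mem_union, vars_C] at h2
  rcases h2 with h2 | h2
  · simp at h2
  · have h3 := vars_pow _ _ h2
    rw [vars_X, Finset.mem_singleton] at h3
    exact one_ne_zero'.symm h3

lemma g_ne (hs : ∀ j z, IsSingularPt (g j) z ↔ z = 0) (j : Fin r) :
    ∃ z : Fin (m + 1) → ℂ, eval z (g j) ≠ 0 := by
  by_contra hcon
  push Not at hcon
  have h0 : g j = 0 := by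
    apply MvPolynomial.funext
    intro z
    rw [hcon z, map_zero]
  have h1 : IsSingularPt (g j) (fun _ => (1 : ℂ)) := by
    rw [h0]
    exact ⟨map_zero _, fun i => by rw [map_zero, map_zero]⟩
  have h2 := congrFun ((hs j _).mp h1) 0
  exact one_ne_zero h2

lemma irreducible_PP (hc : Function.Injective c)
    (hs : ∀ j z, IsSingularPt (g j) z ↔ z = 0) : Irreducible (PP c g) := by
  have hal : al m (Lagrange.nodal Finset.univ c) = ∏ j, (X 1 - C (c j)) := by
    rw [al, Lagrange.nodal_eq, map_prod]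
    apply Finset.prod_congr rfl
    intro j _
    rw [map_sub, Polynomial.aeval_X, Polynomial.aeval_C, MvPolynomial.algebraMap_eq]
  apply irreducible_mul_X_add
  · rw [hal, Finset.prod_ne_zero_iff]
    intro j _
    exact (irr_lin (c j)).ne_zero
  · exact vars_al _
  · rw [vars_neg]
    intro h
    have h1 := vars_sum_subset _ _ h
    rw [Finset.mem_biUnion] at h1
    obtain ⟨i, _, hi⟩ := h1
    have h2 := vars_mul _ _ hi
    rw [Finset.mem_union] at h2
    rcases h2 with h2 | h2
    · exact vars_al _ h2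
    · exact notMem_rn _ 0 ss_ne_zero h2
  · rw [hal]
    apply IsRelPrime.prod_left
    intro j _
    rw [(irr_lin (c j)).isRelPrime_iff_not_dvd]
    rintro ⟨q, hq⟩
    obtain ⟨z, hz⟩ := g_ne hs j
    set a : Fin (m + 3) → ℂ := Fin.cons 0 (Fin.cons (c j) z) with ha
    have ha1 : a 1 = c j := rfl
    have haz : ze a = z := rfl
    have h1 := congrArg (eval a) hq
    rw [map_neg, map_sum, map_mul, map_sub, eval_X, eval_C, ha1, sub_self, zero_mul,
      neg_eq_zero] at h1
    have h2 : ∑ i, eval a (al m (Lg c i) * rn (g i)) = ∑ i, Lv c i (c j) * eval z (g i) := by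
      apply Finset.sum_congr rfl
      intro i _
      rw [map_mul, eval_al, eval_rn, ha1, haz]; rfl
    rw [h2, sum_node hc j] at h1
    exact hz h1

/-! ### Contractibility -/

lemma continuous_Lv (j : Fin r) : Continuous fun x : ℂ => Lv c j x := (Lg c j).continuous

lemma continuous_kap (d : Fin r → ℕ) : Continuous fun q : ℂ × ℂ => kap c d q.1 q.2 := by
  refine continuous_finsetSum _ fun k _ => ?_
  exact (continuous_fst.pow _).mul ((continuous_Lv k).comp continuous_snd)

lemma continuous_Hf (w : Fin r → Fin (m + 1) → ℕ) (i : Fin (m + 1)) :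
    Continuous fun q : ℂ × ℂ => Hf c w q.1 q.2 i := by
  refine continuous_finsetSum _ fun k _ => ?_
  exact (continuous_fst.pow _).mul ((continuous_Lv k).comp continuous_snd)

lemma continuous_ze : Continuous (ze : (Fin (m + 3) → ℂ) → Fin (m + 1) → ℂ) :=
  continuous_pi fun i => continuous_apply _

theorem contractible_PP (hr : 0 < r) (hc : Function.Injective c)
    {w : Fin r → Fin (m + 1) → ℕ} {d : Fin r → ℕ} (hw : ∀ j i, 0 < w j i) (hd : ∀ j, 0 < d j)
    (hq : ∀ j (t : ℂ) z, eval (fun i => t ^ w j i * z i) (g j) = t ^ d j * eval z (g j)) :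
    ContractibleSpace {x : Fin (m + 3) → ℂ // eval x (PP c g) = 0} := by
  obtain ⟨lam, hcont, hfac, hl1, hl0⟩ := exists_lam hr hc hw hd hq
  have hg0 : ∀ j, eval (0 : Fin (m + 1) → ℂ) (g j) = 0 := by
    intro j
    have := hq j 0 0
    simp only [Pi.zero_apply, mul_zero, zero_pow (hd j).ne', zero_mul] at this
    exact this
  -- the first stage
  let sc' : ℂ → (Fin (m + 3) → ℂ) → (Fin (m + 3) → ℂ) := fun τ x =>
    Fin.cons (kap c d τ (x 1) * x 0 + lam ((τ, ze x), x 1))
      (Fin.cons (x 1) fun i => Hf c w τ (x 1) i * ze x i)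
  have sc0 : ∀ τ x, sc' τ x 0 = kap c d τ (x 1) * x 0 + lam ((τ, ze x), x 1) := fun _ _ => rfl
  have sc1 : ∀ τ x, sc' τ x 1 = x 1 := fun _ _ => rfl
  have scz : ∀ τ x, ze (sc' τ x) = fun i => Hf c w τ (x 1) i * ze x i := fun _ _ => rfl
  have scs : ∀ τ x (i : Fin (m + 1)), sc' τ x i.succ.succ = Hf c w τ (x 1) i * ze x i :=
    fun _ _ _ => rfl
  have sc_mem : ∀ τ x, eval x (PP c g) = 0 → eval (sc' τ x) (PP c g) = 0 := by
    intro τ x hx
    rw [eval_PP] at hx ⊢
    rw [sc0, sc1, scz, hfac]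
    linear_combination kap c d τ (x 1) * hx
  have sc_one : ∀ x, sc' 1 x = x := by
    intro x
    have h1 : ∀ i, Hf c w 1 (x 1) i = 1 := by
      intro i
      simp only [Hf, one_pow, one_mul]
      exact sum_Lv hc hr _
    have h2 : kap c d 1 (x 1) = 1 := by
      simp only [kap, one_pow, one_mul]
      exact sum_Lv hc hr _
    funext i
    refine Fin.cases ?_ (fun i => ?_) i
    · rw [sc0, h2, hl1, one_mul, add_zero]
    · refine Fin.cases ?_ (fun i => ?_) i
      · exact sc1 1 x
      · rw [scs, h1, one_mul]; rfl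
  have sc_zero : ∀ x, sc' 0 x = li 1 x := by
    intro x
    have h1 : ∀ i, Hf c w 0 (x 1) i = 0 := by
      intro i
      simp only [Hf]
      apply Finset.sum_eq_zero
      intro k _
      rw [zero_pow (hw k i).ne', zero_mul]
    have h2 : kap c d 0 (x 1) = 0 := by
      simp only [kap]
      apply Finset.sum_eq_zero
      intro k _
      rw [zero_pow (hd k).ne', zero_mul]
    funext i
    refine Fin.cases ?_ (fun i => ?_) i
    · rw [sc0, h2, hl0, zero_mul, add_zero, li_0]
    · refine Fin.cases ?_ (fun i => ?_) i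
      · have : (0 : Fin (m + 2)).succ = (1 : Fin (m + 3)) := rfl
        rw [this, sc1, li_1, one_mul]
      · rw [scs, h1, zero_mul, li_ss]
  have li_mem' : ∀ s (x : Fin (m + 3) → ℂ), eval (li s x) (PP c g) = 0 := by
    intro s x
    have hz : ze (li s x) = 0 := by
      funext i
      exact li_ss s x i
    rw [eval_PP, li_0, mul_zero, hz, Gf]
    simp only [hg0, mul_zero, Finset.sum_const_zero, sub_zero]
  have continuous_sc' : Continuous fun q : ℂ × (Fin (m + 3) → ℂ) => sc' q.1 q.2 := by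
    have hx1 : Continuous fun q : ℂ × (Fin (m + 3) → ℂ) => (q.1, q.2 1) := by fun_prop
    refine continuous_pi fun i => ?_
    refine Fin.cases ?_ (fun i => ?_) i
    · simp only [sc0]
      refine Continuous.add (Continuous.mul ((continuous_kap (c := c) d).comp hx1)
        (by fun_prop)) ?_
      refine hcont.comp ?_
      exact (continuous_fst.prodMk (continuous_ze.comp continuous_snd)).prodMk (by fun_prop)
    · refine Fin.cases ?_ (fun i => ?_) i
      · have : (0 : Fin (m + 2)).succ = (1 : Fin (m + 3)) := rfl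
        simp only [this, sc1]; fun_prop
      · simp only [scs]
        exact ((continuous_Hf (c := c) w i).comp hx1).mul
          ((continuous_apply i).comp (continuous_ze.comp continuous_snd))
  let ZZ : Type := {x : Fin (m + 3) → ℂ // eval x (PP c g) = 0}
  have hpar : Continuous fun q : unitInterval × ZZ => (par q.1, (q.2.1 : Fin (m + 3) → ℂ)) :=
    (continuous_par.comp continuous_fst).prodMk (continuous_subtype_val.comp continuous_snd)
  let pr : C(ZZ, ZZ) := ⟨fun x => ⟨li 1 x.1, li_mem' _ _⟩, by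
    apply Continuous.subtype_mk
    exact (continuous_li m).comp (by fun_prop : Continuous fun x : ZZ => ((1 : ℂ), x.1))⟩
  let o : ZZ := ⟨0, by
    have := li_mem' 0 (0 : Fin (m + 3) → ℂ)
    rw [li_zero] at this
    exact this⟩
  let K1 : unitInterval × ZZ → ZZ := fun q => ⟨sc' (par q.1) q.2.1, sc_mem _ _ q.2.2⟩
  let K2 : unitInterval × ZZ → ZZ := fun q => ⟨li (par q.1) q.2.1, li_mem' _ _⟩
  have hK1 : Continuous K1 := by
    apply Continuous.subtype_mk
    exact Continuous.comp (g := fun q : ℂ × (Fin (m + 3) → ℂ) => sc' q.1 q.2)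
      (f := fun q : unitInterval × ZZ => (par q.1, (q.2.1 : Fin (m + 3) → ℂ)))
      continuous_sc' hpar
  have hK2 : Continuous K2 := by
    apply Continuous.subtype_mk
    exact Continuous.comp (g := fun q : ℂ × (Fin (m + 3) → ℂ) => li q.1 q.2)
      (f := fun q : unitInterval × ZZ => (par q.1, (q.2.1 : Fin (m + 3) → ℂ)))
      (continuous_li m) hpar
  rw [contractible_iff_id_nullhomotopic]
  have h1 : (ContinuousMap.id ZZ).Homotopic pr := ⟨⟨⟨K1, hK1⟩, fun x => by
      apply Subtype.ext
      change sc' (par 0) x.1 = x.1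
      rw [par_zero, sc_one], fun x => by
      apply Subtype.ext
      change sc' (par 1) x.1 = li 1 x.1
      rw [par_one, sc_zero]⟩⟩
  have h2 : pr.Homotopic (ContinuousMap.const ZZ o) := ⟨⟨⟨K2, hK2⟩, fun x => by
      apply Subtype.ext
      change li (par 0) x.1 = li 1 x.1
      rw [par_zero], fun x => by
      apply Subtype.ext
      change li (par 1) x.1 = 0
      rw [par_one, li_zero]⟩⟩
  exact ⟨o, h1.trans h2⟩

/-! ### The local equation -/

lemma local_eq (hc : Function.Injective c) (hs : ∀ j z, IsSingularPt (g j) z ↔ z = 0)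
    (j : Fin r) : ∃ v : MvPolynomial (Fin (m + 3)) ℂ,
      PP c g = (X 1 - C (c j)) * v - rn (g j) ∧ eval (spt m (c j)) v = 0 ∧
        eval (spt m (c j)) (pderiv 0 v) ≠ 0 := by
  classical
  have hg0 : ∀ j, eval (0 : Fin (m + 1) → ℂ) (g j) = 0 := fun j => ((hs j 0).mpr rfl).1
  have he : ∀ i, ∃ e : Polynomial ℂ, Lg c i =
      (Polynomial.X - Polynomial.C (c j)) * e + (if i = j then 1 else 0) := by
    intro i
    have hroot : (Lg c i - (if i = j then 1 else 0)).IsRoot (c j) := by
      have h1 : (Lg c i).eval (c j) = Lv c i (c j) := rfl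
      by_cases hij : i = j
      · rw [if_pos hij, Polynomial.IsRoot, Polynomial.eval_sub, h1, Polynomial.eval_one, hij,
          Lv_self hc, sub_self]
      · rw [if_neg hij, Polynomial.IsRoot, Polynomial.eval_sub, h1, Polynomial.eval_zero,
          Lv_ne hij, sub_self]
    obtain ⟨e, he⟩ := Polynomial.dvd_iff_isRoot.mpr hroot
    exact ⟨e, by rw [← he]; ring⟩
  choose e he using he
  set N : Polynomial ℂ := Lagrange.nodal (Finset.univ.erase j) c with hN
  have hnod : Lagrange.nodal Finset.univ c = (Polynomial.X - Polynomial.C (c j)) * N :=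
    Lagrange.nodal_eq_mul_nodal_erase (Finset.mem_univ j)
  have hlin : al m (Polynomial.X - Polynomial.C (c j)) = X 1 - C (c j) := by
    rw [al, map_sub, Polynomial.aeval_X, Polynomial.aeval_C, MvPolynomial.algebraMap_eq]
  have hmul : ∀ a b, al m (a * b) = al m a * al m b := fun a b => map_mul _ _ _
  have hadd : ∀ a b, al m (a + b) = al m a + al m b := fun a b => map_add _ _ _
  refine ⟨al m N * X 0 - ∑ i, al m (e i) * rn (g i), ?_, ?_, ?_⟩
  · have h1 : ∑ i, al m (Lg c i) * rn (g i) =
        (X 1 - C (c j)) * ∑ i, al m (e i) * rn (g i) + rn (g j) := by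
      have h2 : ∀ i, al m (Lg c i) * rn (g i) = (X 1 - C (c j)) * (al m (e i) * rn (g i)) +
          (if i = j then rn (g i) else 0) := by
        intro i
        rw [he i, hadd, hmul, hlin]
        by_cases hij : i = j
        · rw [if_pos hij, if_pos hij]
          have : al m 1 = 1 := map_one _
          rw [this]
          ring
        · rw [if_neg hij, if_neg hij]
          have : al m 0 = 0 := map_zero _
          rw [this]
          ring
      rw [Finset.sum_congr rfl fun i _ => h2 i, Finset.sum_add_distrib, ← Finset.mul_sum,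
        Finset.sum_ite_eq' Finset.univ j, if_pos (Finset.mem_univ j)]
    rw [PP, h1, hnod, hmul, hlin]
    ring
  · rw [map_sub, map_mul, eval_X, spt_0, mul_zero, map_sum]
    have : ∀ i, eval (spt m (c j)) (al m (e i) * rn (g i)) = 0 := by
      intro i
      rw [map_mul, eval_rn, spt_ze, hg0, mul_zero]
    simp only [this, Finset.sum_const_zero, sub_zero]
  · have h1 : pderiv (0 : Fin (m + 3)) (X 1 : MvPolynomial (Fin (m + 3)) ℂ) = 0 :=
      pderiv_X_of_ne one_ne_zero'
    have h2 : ∀ f, pderiv (0 : Fin (m + 3)) (al m f) = 0 := fun f => by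
      rw [pderiv_al, h1, mul_zero]
    have h3 : ∀ g : MvPolynomial (Fin (m + 1)) ℂ, pderiv (0 : Fin (m + 3)) (rn g) = 0 :=
      fun g => pderiv_rn_of g 0 ss_ne_zero
    simp only [map_sub, map_sum, Derivation.leibniz, h2, h3, pderiv_X_self, smul_eq_mul,
      mul_zero, add_zero, mul_one, Finset.sum_const_zero, sub_zero, eval_al, spt_1]
    rw [hN, Lagrange.eval_nodal, Finset.prod_ne_zero_iff]
    intro i hi h0
    exact (Finset.mem_erase.mp hi).1 (hc (sub_eq_zero.mp h0)).symm

/-! ### Quasihomogeneous polynomials -/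

lemma qh_nat {k : ℕ} {q : MvPolynomial (Fin k) ℂ} (hq : IsQuasihomogeneous q)
    (h0 : eval (0 : Fin k → ℂ) q = 0) (hne : ∃ z, eval z q ≠ 0) :
    ∃ w : Fin k → ℕ, (∀ i, 0 < w i) ∧ ∃ d : ℕ, 0 < d ∧ ∀ (t : ℂ) z,
      eval (fun i => t ^ w i * z i) q = t ^ d * eval z q := by
  obtain ⟨w, hw, d, h⟩ := hq
  obtain ⟨z₀, hz₀⟩ := hne
  have hz : ∀ z : Fin k → ℂ, (fun i => (0 : ℂ) ^ w i * z i) = 0 := by
    intro z
    funext i
    rw [zero_pow (hw i).ne', zero_mul]; rfl
  have hd : 0 < d := by
    by_contra hcon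
    push Not at hcon
    obtain ⟨n, hn⟩ : ∃ n : ℕ, d = -(n : ℤ) := ⟨(-d).toNat, by omega⟩
    have hcont : Continuous fun t : ℂ => eval (fun i => t ^ w i * z₀ i) q * t ^ n := by
      refine Continuous.mul ?_ (continuous_id.pow n)
      exact (MvPolynomial.continuous_eval q).comp (by fun_prop)
    have heq := hcont.ext_on (dense_compl_singleton (0 : ℂ)) continuous_const
      (g := fun _ => eval z₀ q) (by
        intro t ht
        have ht' : t ≠ 0 := ht
        change eval (fun i => t ^ w i * z₀ i) q * t ^ n = eval z₀ q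
        rw [h t ht', hn, zpow_neg, zpow_natCast]
        field_simp)
    have := congrFun heq 0
    simp only [hz, h0, zero_mul] at this
    exact hz₀ this.symm
  refine ⟨w, hw, d.toNat, by omega, ?_⟩
  intro t z
  by_cases ht : t = 0
  · rw [ht, hz, h0, zero_pow (by omega), zero_mul]
  · rw [h t ht]
    congr 1
    rw [← zpow_natCast]
    congr 1
    omega

end

end Pool.Agent.Y34.CH
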