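import Mathlib

/-!
Division by a product of linear factors, with coefficients in a ring of continuous functions of
parameters.
-/

set_option autoImplicit false

namespace Pool.Agent.Y34.CH

open Polynomial

noncomputable section

variable {A : Type} [CommRing A] [Algebra ℂ A] {T : Type} [TopologicalSpace T] {r : ℕ}

/-- Evaluation of a polynomial with coefficients in `A` at `X = x` and then at the point `t`. -/
def ph (ev : T → A →+* ℂ) (t : T) (x : ℂ) : A[X] →+* ℂ :=
  (ev t).comp (Polynomial.evalRingHom (algebraMap ℂ A x))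

lemma ph_apply (ev : T → A →+* ℂ) (t : T) (x : ℂ) (S : A[X]) :
    ph ev t x S = ev t (S.eval (algebraMap ℂ A x)) := rfl

lemma ph_X (ev : T → A →+* ℂ) (h1 : ∀ t c, ev t (algebraMap ℂ A c) = c) (t : T) (x : ℂ) :
    ph ev t x (X : A[X]) = x := by
  rw [ph_apply, eval_X, h1]

lemma ph_C (ev : T → A →+* ℂ) (t : T) (x : ℂ) (a : A) : ph ev t x (C a) = ev t a := by
  rw [ph_apply, eval_C]

lemma ph_algebraMap (ev : T → A →+* ℂ) (h1 : ∀ t c, ev t (algebraMap ℂ A c) = c) (t : T)
    (x c : ℂ) : ph ev t x (algebraMap ℂ A[X] c) = c := by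
  have : algebraMap ℂ A[X] c = C (algebraMap ℂ A c) := rfl
  rw [this, ph_C, h1]

/-- Division by `∏ (X - c j)`. -/
lemma exists_quot (ev : T → A →+* ℂ) (h1 : ∀ t c, ev t (algebraMap ℂ A c) = c)
    (h2 : ∀ a, (∀ t, ev t a = 0) → a = 0) (h3 : ∀ a, Continuous fun t => ev t a)
    (c : Fin r → ℂ) (hc : Function.Injective c) (S : A[X])
    (h : ∀ t k, ph ev t (c k) S = 0) :
    ∃ lam : T × ℂ → ℂ, Continuous lam ∧
      (∀ t x, ph ev t x S = (∏ j, (x - c j)) * lam (t, x)) ∧
      (∀ t, (∀ x, ph ev t x S = 0) → ∀ x, lam (t, x) = 0) := by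
  classical
  have hdvd : (∏ j, (X - C (algebraMap ℂ A (c j)))) ∣ S := by
    apply Finset.prod_dvd_of_coprime
    · intro i _ j _ hij
      apply isCoprime_X_sub_C_of_isUnit_sub
      rw [← map_sub]
      exact (isUnit_iff_ne_zero.mpr (sub_ne_zero.mpr (fun h => hij (hc h)))).map _
    · intro j _
      rw [dvd_iff_isRoot]
      apply h2
      intro t
      exact h t j
  obtain ⟨L, hL⟩ := hdvd
  set lam : T × ℂ → ℂ := fun q =>
    ∑ k ∈ Finset.range (L.natDegree + 1), ev q.1 (L.coeff k) * q.2 ^ k with hlam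
  have hcont : Continuous lam := by
    rw [hlam]
    refine continuous_finsetSum _ fun k _ => ?_
    exact ((h3 (L.coeff k)).comp continuous_fst).mul (continuous_snd.pow k)
  have hphL : ∀ t x, ph ev t x L = lam (t, x) := by
    intro t x
    conv_lhs => rw [L.as_sum_range_C_mul_X_pow]
    rw [map_sum]
    apply Finset.sum_congr rfl
    intro k _
    rw [map_mul, map_pow, ph_C, ph_X ev h1]
  have hfac : ∀ t x, ph ev t x S = (∏ j, (x - c j)) * lam (t, x) := by
    intro t x
    rw [hL, map_mul, map_prod, hphL]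
    congr 1
    apply Finset.prod_congr rfl
    intro j _
    rw [map_sub, ph_X ev h1, ph_C, h1]
  refine ⟨lam, hcont, hfac, ?_⟩
  intro t ht
  have hd : Dense (Set.range c)ᶜ :=
    (Set.finite_range c).countable.dense_compl ℝ
  have hct : Continuous fun x : ℂ => lam (t, x) := hcont.comp (by fun_prop)
  have heq := hct.ext_on hd continuous_const (g := fun _ => (0 : ℂ)) (by
    intro x hx
    have h4 := hfac t x
    rw [ht x] at h4
    have h5 : ∏ j, (x - c j) ≠ 0 := by
      rw [Finset.prod_ne_zero_iff]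
      intro j _ h0
      exact hx ⟨j, (sub_eq_zero.mp h0).symm⟩
    rcases mul_eq_zero.mp h4.symm with h6 | h6
    · exact absurd h6 h5
    · exact h6)
  intro x
  exact congrFun heq x

end

end Pool.Agent.Y34.CH
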